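import Pool.Agent.P.MP_06afd2_nt.D1.Final

namespace Pool.Agent.Results.MP_06afd2_nt.DensityOne

open Pool.Agent.P.MP_06afd2_nt Filter Topology

/-- The proportion of integers `n` with `2 ≤ n ≤ X` whose set `P n` differs from `P m` for every
other `m` with `2 ≤ m ≤ X` tends to `1`. -/
theorem result : Tendsto (fun X : ℕ =>
    ({n : ℕ | 2 ≤ n ∧ n ≤ X ∧ ∀ m : ℕ, 2 ≤ m → m ≤ X → m ≠ n → P m ≠ P n}.ncard : ℝ) / X)
    atTop (𝓝 1) :=
  Pool.Agent.PSD.density_one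

end Pool.Agent.Results.MP_06afd2_nt.DensityOne
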